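import Pool.Agent.Helper59.HR.Spec

/-!
Part CIR of swarm HR: circuits in general position.
-/

set_option autoImplicit false

open MvPolynomial Pool.Agent.Helper59.LP

namespace Pool.Agent.Helper3.HR.CIR

variable {J : Type} [Fintype J] [DecidableEq J] {d : ℕ}

/-- the volume can be computed with any enumeration -/
theorem dv_eq (v : J → Ve d) (σ : Finset J) (h : σ.card = d) (g : Fin d → J)
    (hg : Function.Injective g) (hgσ : ∀ k, g k ∈ σ) :
    dv v σ = |Matrix.det (fun k : Fin d => v (g k))| := by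
  unfold dv
  rw [dif_pos h]
  let e := σ.equivFinOfCardEq h
  let τ₀ : Fin d → Fin d := fun k => e ⟨g k, hgσ k⟩
  have hτ₀ : Function.Injective τ₀ := by
    intro a b hab
    have := e.injective hab
    exact hg (Subtype.ext_iff.1 this)
  let τ : Equiv.Perm (Fin d) := Equiv.ofBijective τ₀ (Finite.injective_iff_bijective.1 hτ₀)
  have h1 : (fun k : Fin d => v (g k)) =
      Matrix.submatrix (fun k : Fin d => v (e.symm k) : Matrix (Fin d) (Fin d) ℝ) τ id := by
    funext k l
    show v (g k) l = v ((e.symm (e ⟨g k, hgσ k⟩) : {x // x ∈ σ}) : J) l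
    rw [Equiv.symm_apply_apply]
  have h2 : Matrix.det (fun k : Fin d => v (g k)) =
      Matrix.det (Matrix.submatrix (fun k : Fin d => v (e.symm k) : Matrix (Fin d) (Fin d) ℝ) τ id) :=
    congrArg Matrix.det h1
  rw [h2, Matrix.det_permute, abs_mul]
  have h3 : |((Equiv.Perm.sign τ : ℤˣ) : ℝ)| = 1 := by
    rcases Int.units_eq_one_or (Equiv.Perm.sign τ) with h | h <;> simp [h]
  rw [h3, one_mul]

theorem det_ne_zero (v : J → Ve d) (σ : Finset J) (hσ : Ind v σ) (g : Fin d → J)
    (hg : Function.Injective g) (hgσ : ∀ k, g k ∈ σ) :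
    Matrix.det (fun k : Fin d => v (g k)) ≠ 0 := by
  have h1 : LinearIndependent ℝ (fun k : Fin d => v (g k)) := by
    unfold Ind at hσ
    exact hσ.comp (fun k : Fin d => (⟨g k, hgσ k⟩ : {x // x ∈ σ}))
      (fun a b hab => hg (Subtype.ext_iff.1 hab))
  have h2 : IsUnit (Matrix.of fun k : Fin d => v (g k)) := by
    rw [← Matrix.linearIndependent_rows_iff_isUnit]
    exact h1
  rw [Matrix.isUnit_iff_isUnit_det] at h2
  exact h2.ne_zero

theorem main : S_CIR := by
  intro J _ _ d v hGP Z hZ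
  classical
  let e : {x // x ∈ Z} ≃ Fin (d + 1) := Z.equivFinOfCardEq hZ
  let z : Fin (d + 1) → J := fun i => (e.symm i : J)
  have hz : Function.Injective z := fun a b hab => e.symm.injective (Subtype.ext hab)
  have hzZ : ∀ i, z i ∈ Z := fun i => (e.symm i).2
  let D : Fin (d + 1) → ℝ := fun i => Matrix.det (fun k : Fin d => v (z (i.succAbove k)))
  have hinj : ∀ i : Fin (d + 1), Function.Injective (fun k : Fin d => z (i.succAbove k)) :=
    fun i => hz.comp Fin.succAbove_right_injective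
  have hmem : ∀ (i : Fin (d + 1)) (k : Fin d), z (i.succAbove k) ∈ Z.erase (z i) := fun i k =>
    Finset.mem_erase.2 ⟨fun h => Fin.succAbove_ne i k (hz h), hzZ _⟩
  have hcard : ∀ i : Fin (d + 1), (Z.erase (z i)).card = d := by
    intro i
    rw [Finset.card_erase_of_mem (hzZ i), hZ]; rfl
  have hD0 : ∀ i, D i ≠ 0 := fun i =>
    det_ne_zero v (Z.erase (z i)) (hGP _ (hcard i).le) _ (hinj i) (hmem i)
  have hDv : ∀ i, dv v (Z.erase (z i)) = |D i| := fun i =>
    dv_eq v (Z.erase (z i)) (hcard i) _ (hinj i) (hmem i)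
  let lam : J → ℝ := fun j => if h : j ∈ Z then (-1) ^ ((e ⟨j, h⟩ : Fin (d + 1)) : ℕ) * D (e ⟨j, h⟩)
    else 0
  have hlz : ∀ i, lam (z i) = (-1) ^ (i : ℕ) * D i := by
    intro i
    have h1 : e ⟨z i, hzZ i⟩ = i := by
      show e (e.symm i) = i
      exact Equiv.apply_symm_apply _ _
    simp only [lam]
    rw [dif_pos (hzZ i), h1]
  have hsurj : ∀ j ∈ Z, ∃ i, j = z i := by
    intro j hj
    refine ⟨e ⟨j, hj⟩, ?_⟩
    show j = ((e.symm (e ⟨j, hj⟩) : {x // x ∈ Z}) : J)
    rw [Equiv.symm_apply_apply]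
  refine ⟨lam, ⟨hZ, ?_, ?_, ?_⟩⟩
  · intro j
    constructor
    · intro h
      by_contra hj
      apply h
      simp only [lam]
      rw [dif_neg hj]
    · intro hj
      obtain ⟨i, rfl⟩ := hsurj j hj
      rw [hlz]
      exact mul_ne_zero (pow_ne_zero _ (by norm_num)) (hD0 i)
  · funext c
    have h1 : (∑ j, lam j • v j) c = ∑ i : Fin (d + 1), (-1) ^ (i : ℕ) * v (z i) c * D i := by
      rw [Finset.sum_apply]
      have h2 : ∑ j, (lam j • v j) c = ∑ j ∈ Z, (lam j • v j) c := by
        symm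
        refine Finset.sum_subset (Finset.subset_univ _) fun j _ hj => ?_
        have : lam j = 0 := by simp only [lam]; rw [dif_neg hj]
        rw [this, zero_smul, Pi.zero_apply]
      rw [h2, ← Finset.sum_coe_sort Z, ← Equiv.sum_comp e.symm]
      refine Finset.sum_congr rfl fun i _ => ?_
      have h3 : lam ((e.symm i : {x // x ∈ Z}) : J) = (-1) ^ (i : ℕ) * D i := hlz i
      rw [h3, Pi.smul_apply, smul_eq_mul]
      show (-1) ^ (i : ℕ) * D i * v (z i) c = _
      ring
    rw [h1, Pi.zero_apply]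
    let M : Matrix (Fin (d + 1)) (Fin (d + 1)) ℝ :=
      fun i => Fin.cons (v (z i) c) (v (z i))
    have h4 : M.det = 0 := by
      apply Matrix.det_zero_of_column_eq (i := 0) (j := Fin.succ c) (Fin.succ_ne_zero c).symm
      intro i
      simp [M]
    rw [Matrix.det_succ_column_zero] at h4
    rw [← h4]
    refine Finset.sum_congr rfl fun i _ => ?_
    congr 1
  · intro j hj
    obtain ⟨i, rfl⟩ := hsurj j hj
    rw [hDv, hlz, abs_mul, abs_pow, abs_neg, abs_one, one_pow, one_mul]

end Pool.Agent.Helper3.HR.CIR
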