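import Pool.Agent.Helper59.HR.Spec

/-!
Part EMP of swarm HR.
-/

set_option autoImplicit false

open MvPolynomial Pool.Agent.Helper59.LP

namespace Pool.Agent.Helper3.HR.EMP

theorem main : S_EMP := by
  intro J _ _ d v c u hd hPS hu
  refine ⟨∑ j, |c j| / u j, fun s hs m hm => ?_⟩
  have h1 : ∀ j, c j - s * u j < 0 := by
    intro j
    have h2 : |c j| / u j ≤ ∑ j, |c j| / u j :=
      Finset.single_le_sum (f := fun j => |c j| / u j)
        (fun i _ => div_nonneg (abs_nonneg _) (hu i).le) (Finset.mem_univ j)
    have h3 : |c j| / u j < s := lt_of_le_of_lt h2 hs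
    rw [div_lt_iff₀ (hu j)] at h3
    have := le_abs_self (c j)
    linarith
  have h4 : -m = 0 := by
    apply hPS
    intro j
    have h5 : dt (-m) (v j) = -dt m (v j) := by
      unfold dt
      rw [← Finset.sum_neg_distrib]
      exact Finset.sum_congr rfl fun k _ => by simp
    have := hm j
    rw [h5]
    have := h1 j
    simp only at *
    linarith
  have h6 : m = 0 := neg_eq_zero.1 h4
  by_cases hJ : Nonempty J
  · obtain ⟨j⟩ := hJ
    have h7 := hm j
    have h8 := h1 j
    have h9 : dt m (v j) = 0 := by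
      rw [h6]; unfold dt; simp
    simp only at h7
    linarith
  · have h10 : (fun _ => 1 : Ve d) = 0 := hPS _ fun j => (hJ ⟨j⟩).elim
    have h11 := congrFun h10 ⟨0, hd⟩
    simp at h11

end Pool.Agent.Helper3.HR.EMP
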