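import Pool.Agent.Helper59.HR.Spec

/-!
Part GXE of swarm HR.
-/

set_option autoImplicit false

open MvPolynomial Pool.Agent.Helper59.LP

namespace Pool.Agent.Helper3.HR.GXE

/-- a point outside of finitely many hyperplanes -/
theorem avoid {d : ℕ} (S : Finset (Ve d)) (hS : ∀ m ∈ S, m ≠ 0) :
    ∃ ξ : Ve d, ∀ m ∈ S, dt m ξ ≠ 0 := by
  classical
  let P : Ve d → Polynomial ℝ := fun m => ∑ k : Fin d, Polynomial.C (m k) * Polynomial.X ^ (k : ℕ)
  have hP : ∀ m ∈ S, P m ≠ 0 := by
    intro m hm h0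
    apply hS m hm
    funext k
    have h1 := congrArg (fun q => Polynomial.coeff q (k : ℕ)) h0
    simp only [P, Polynomial.finset_sum_coeff, Polynomial.coeff_C_mul, Polynomial.coeff_X_pow,
      Polynomial.coeff_zero] at h1
    rw [Finset.sum_eq_single k] at h1
    · simpa using h1
    · intro i _ hik
      have : ¬ ((k : ℕ) = (i : ℕ)) := fun h => hik (Fin.ext h.symm)
      simp [this]
    · intro h
      exact absurd (Finset.mem_univ _) h
  have hprod : ∏ m ∈ S, P m ≠ 0 := Finset.prod_ne_zero_iff.2 hP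
  obtain ⟨t, ht⟩ : ∃ t : ℝ, Polynomial.eval t (∏ m ∈ S, P m) ≠ 0 := by
    by_contra hc
    push Not at hc
    exact hprod (Polynomial.funext fun t => by rw [hc t, Polynomial.eval_zero])
  refine ⟨fun k => t ^ (k : ℕ), fun m hm h0 => ?_⟩
  rw [Polynomial.eval_prod, Finset.prod_ne_zero_iff] at ht
  apply ht m hm
  simp only [P, Polynomial.eval_finset_sum, Polynomial.eval_mul, Polynomial.eval_C,
    Polynomial.eval_pow, Polynomial.eval_X]
  exact h0

theorem main (hCF : S_CF) : S_GXE := by
  classical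
  intro J _ _ d v
  have hm : ∀ (σ : Finset J) (j : J), σ.card = d → Ind v σ → j ∈ σ →
      ∃ m : Ve d, m ≠ 0 ∧ ∀ ξ, dt m ξ = cf v ξ σ j := by
    intro σ j h1 h2 hj
    obtain ⟨m, hm, -⟩ := (hCF J d v 0 σ h1 h2).2.2.2.2 (fun i => if i = j then 1 else 0)
    refine ⟨m, ?_, ?_⟩
    · rintro rfl
      have h3 := hm j hj
      unfold dt at h3
      simp at h3
    · intro ξ
      obtain ⟨h3, h4, -⟩ := hCF J d v ξ σ h1 h2
      have h5 : dt m ξ = ∑ i, cf v ξ σ i * dt m (v i) := by
        conv_lhs => rw [← h4]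
        unfold dt
        simp only [Finset.sum_apply, Pi.smul_apply, smul_eq_mul, Finset.mul_sum]
        rw [Finset.sum_comm]
        exact Finset.sum_congr rfl fun i _ => Finset.sum_congr rfl fun k _ => by ring
      rw [h5, Finset.sum_eq_single j]
      · have := hm j hj
        simp only [if_true] at this
        rw [this, mul_one]
      · intro i _ hij
        by_cases hi : i ∈ σ
        · have := hm i hi
          simp only [if_neg hij] at this
          rw [this, mul_zero]
        · rw [h3 i hi, zero_mul]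
      · intro h
        exact absurd (Finset.mem_univ _) h
  choose! M hM0 hM using hm
  obtain ⟨ξ, hξ⟩ := avoid (((Finset.univ : Finset (Finset J × J)).filter
    (fun q => q.1.card = d ∧ Ind v q.1 ∧ q.2 ∈ q.1)).image (fun q => M q.1 q.2)) (by
      intro m hm
      obtain ⟨q, hq, rfl⟩ := Finset.mem_image.1 hm
      obtain ⟨-, h1, h2, h3⟩ := Finset.mem_filter.1 hq
      exact hM0 q.1 q.2 h1 h2 h3)
  refine ⟨ξ, fun σ h1 h2 j hj => ?_⟩
  rw [← hM σ j h1 h2 hj]
  apply hξ
  exact Finset.mem_image.2 ⟨(σ, j), Finset.mem_filter.2 ⟨Finset.mem_univ _, h1, h2, hj⟩, rfl⟩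

end Pool.Agent.Helper3.HR.GXE
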