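import Pool.Agent.Helper59.HR.Spec

/-!
Part HLA of swarm HR.
-/

set_option autoImplicit false

open MvPolynomial Pool.Agent.Helper59.LP

namespace Pool.Agent.Helper3.HR.HLA

theorem main : S_HLA := by
  intro J _ _ φ c n k a hc hkn hHR ha hab j₀ hj₀
  -- the hypothesis of the Hodge-Riemann relations
  have hp : ∀ j, 0 < c j → ∀ i b, i + 1 = k → MvPolynomial.IsHomogeneous b i →
      (φ.comp (LinearMap.mulLeft ℝ (X j))) (Lf c ^ (n - 1 - 2 * k + 1) * (a * b)) = 0 := by
    intro j _ i b hi hb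
    have h1 : n - 1 - 2 * k + 1 = n - 2 * k := by omega
    have h2 : (X j * b : MvPolynomial J ℝ).IsHomogeneous k := by
      have := (isHomogeneous_X ℝ j).mul hb
      rwa [show 1 + i = k by omega] at this
    have h3 := hab _ h2
    rw [LinearMap.comp_apply, LinearMap.mulLeft_apply, h1, ← h3]
    congr 1
    ring
  have he : ∀ j, 0 < c j → 0 ≤ (-1) ^ k * φ (X j * (Lf c ^ (n - 1 - 2 * k) * (a * a))) := by
    intro j hj
    have h1 := (hHR j hj a ha (hp j hj)).1
    rwa [LinearMap.comp_apply, LinearMap.mulLeft_apply] at h1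
  have hsum : ∑ j, c j * ((-1) ^ k * φ (X j * (Lf c ^ (n - 1 - 2 * k) * (a * a)))) = 0 := by
    have h1 := hab a ha
    have h2 : Lf c ^ (n - 2 * k) * (a * a) =
        ∑ j, c j • (X j * (Lf c ^ (n - 1 - 2 * k) * (a * a))) := by
      have h3 : n - 2 * k = (n - 1 - 2 * k) + 1 := by omega
      have h4 : ∑ j, c j • (X j * (Lf c ^ (n - 1 - 2 * k) * (a * a))) =
          (∑ j, C (c j) * X j) * (Lf c ^ (n - 1 - 2 * k) * (a * a)) := by
        rw [Finset.sum_mul]
        refine Finset.sum_congr rfl fun j _ => ?_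
        rw [smul_eq_C_mul, mul_assoc]
      rw [h3, h4, pow_succ]
      have h5 : (∑ j, C (c j) * X j : MvPolynomial J ℝ) = Lf c := rfl
      rw [h5]
      ring
    rw [h2, map_sum] at h1
    have h6 : ∑ j, c j * ((-1) ^ k * φ (X j * (Lf c ^ (n - 1 - 2 * k) * (a * a)))) =
        (-1) ^ k * ∑ j, φ (c j • (X j * (Lf c ^ (n - 1 - 2 * k) * (a * a)))) := by
      rw [Finset.mul_sum]
      refine Finset.sum_congr rfl fun j _ => ?_
      rw [map_smul, smul_eq_mul]
      ring
    rw [h6, h1, mul_zero]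
  have hnn : ∀ j ∈ Finset.univ,
      0 ≤ c j * ((-1) ^ k * φ (X j * (Lf c ^ (n - 1 - 2 * k) * (a * a)))) := by
    intro j _
    rcases (hc j).eq_or_lt with h | h
    · rw [← h, zero_mul]
    · exact mul_nonneg h.le (he j h)
  have hz := (Finset.sum_eq_zero_iff_of_nonneg hnn).1 hsum j₀ (Finset.mem_univ _)
  have hz2 : φ (X j₀ * (Lf c ^ (n - 1 - 2 * k) * (a * a))) = 0 := by
    rcases mul_eq_zero.1 hz with h | h
    · exact absurd h hj₀.ne'
    · rcases mul_eq_zero.1 h with h | h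
      · exact absurd h (pow_ne_zero _ (by norm_num))
      · exact h
  intro b hb
  have h1 := (hHR j₀ hj₀ a ha (hp j₀ hj₀)).2 (by
    rw [LinearMap.comp_apply, LinearMap.mulLeft_apply]; exact hz2) b hb
  rwa [LinearMap.comp_apply, LinearMap.mulLeft_apply] at h1

end Pool.Agent.Helper3.HR.HLA
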