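import Pool.Agent.Helper59.HR.Spec

/-!
Part HLG of swarm HR: hard Lefschetz for the face `F` of a polytope which is simple along `F`.
-/

set_option autoImplicit false

open MvPolynomial Pool.Agent.Helper59.LP

namespace Pool.Agent.Helper3.HR.HLG

/-- prescribed values at independent vectors -/
theorem exists_dt {J : Type} {d : ℕ} (v : J → Ve d) (A : Finset J)
    (hA : Ind v A) (t : J → ℝ) : ∃ m : Ve d, ∀ j ∈ A, dt m (v j) = t j := by
  unfold Ind at hA
  let B := Module.Basis.span hA
  let f₀ := B.constr ℝ (fun j : {x // x ∈ A} => t j)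
  obtain ⟨g, hg⟩ := LinearMap.exists_extend f₀
  refine ⟨fun k => g (Pi.single k 1), fun j hj => ?_⟩
  have h1 : ∀ x : Ve d, dt (fun k => g (Pi.single k 1)) x = g x := by
    intro x
    unfold dt
    have h2 : x = ∑ k, x k • (Pi.single k 1 : Ve d) := by
      funext l
      rw [Finset.sum_apply, Finset.sum_eq_single l]
      · simp
      · intro i _ hil
        simp [hil.symm]
      · intro h
        exact absurd (Finset.mem_univ _) h
    conv_rhs => rw [h2, map_sum]
    refine Finset.sum_congr rfl fun k _ => ?_
    rw [map_smul, smul_eq_mul, mul_comm]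
  rw [h1]
  have h3 : f₀ (B ⟨j, hj⟩) = t j := by
    rw [Module.Basis.constr_basis]
  have h4 : (B ⟨j, hj⟩ : Ve d) = v j := by
    exact congrArg Subtype.val (Module.Basis.span_apply hA ⟨j, hj⟩)
  rw [← h3, ← hg, LinearMap.comp_apply, Submodule.subtype_apply, h4]

/-- a functional which kills the multiples of the variables -/
theorem decomp {J : Type} (ψ : MvPolynomial J ℝ →ₗ[ℝ] ℝ) (r : ℕ)
    (h : ∀ j (b : MvPolynomial J ℝ), b.IsHomogeneous r → ψ (X j * b) = 0)
    (b : MvPolynomial J ℝ) (hb : b.IsHomogeneous (r + 1)) : ψ b = 0 := by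
  classical
  rw [b.as_sum, map_sum]
  refine Finset.sum_eq_zero fun s hs => ?_
  have h1 : s.degree = r + 1 := by
    by_contra hc
    exact (mem_support_iff.1 hs) (hb.coeff_eq_zero hc)
  obtain ⟨j, hj⟩ : ∃ j, s j ≠ 0 := by
    by_contra hc
    push Not at hc
    have h2 : s = 0 := Finsupp.ext hc
    rw [h2] at h1
    simp at h1
  have h3 : s = Finsupp.single j 1 + (s - Finsupp.single j 1) := by
    rw [add_tsub_cancel_of_le]
    rw [Finsupp.single_le_iff]
    omega
  have h4 : (s - Finsupp.single j 1).degree = r := by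
    have h5 := h1
    rw [h3, map_add, Finsupp.degree_single] at h5
    omega
  have h6 : monomial s (coeff s b) = X j * monomial (s - Finsupp.single j 1) (coeff s b) := by
    generalize coeff s b = q
    conv_lhs => rw [h3]
    rw [monomial_single_add, pow_one]
  rw [h6]
  exact h j _ (isHomogeneous_monomial _ h4)

theorem main (hCF : S_CF) (hNF : S_NF) (hTRL : S_TRL) (hHLA : S_HLA) : S_HLG := by
  classical
  intro J _ _ d v ξ c F n hPS hSim hFn hVan hind
  have hFa : ∀ σ ∈ Fa v c, σ.card = d ∧ Ind v σ := by
    intro σ hσ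
    unfold Fa at hσ
    rw [Finset.mem_filter] at hσ
    exact ⟨hσ.2.1, hσ.2.2.1⟩
  obtain ⟨hNF1, -, hNF3⟩ := hNF J d v ξ (Fa v c) F hFa
  by_cases hex : ∃ m, Fe v c m ∧ F ⊆ ac v c m
  · obtain ⟨m₁, hm₁, hF₁⟩ := hex
    have hA := hSim m₁ hm₁ hF₁
    -- a point in the relative interior of the face
    obtain ⟨η, hη⟩ := exists_dt v (ac v c m₁) hA (fun j => if j ∈ F then 0 else -1)
    have hlt : ∀ j, j ∉ ac v c m₁ → dt m₁ (v j) < c j := by
      intro j hj
      refine lt_of_le_of_ne (hm₁ j) fun h => hj ?_
      unfold ac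
      exact Finset.mem_filter.2 ⟨Finset.mem_univ _, h⟩
    obtain ⟨ε, hε0, hε⟩ : ∃ ε : ℝ, 0 < ε ∧
        ∀ j, j ∉ ac v c m₁ → dt m₁ (v j) + ε * dt η (v j) < c j := by
      have h1 : ∀ᶠ ε : ℝ in nhds 0, ∀ j, j ∉ ac v c m₁ → dt m₁ (v j) + ε * dt η (v j) < c j := by
        rw [Filter.eventually_all]
        intro j
        by_cases hj : j ∈ ac v c m₁
        · exact Filter.Eventually.of_forall fun ε h => absurd hj h
        · have h2 : Continuous fun ε : ℝ => dt m₁ (v j) + ε * dt η (v j) := by fun_prop
          have h3 : (fun ε : ℝ => dt m₁ (v j) + ε * dt η (v j)) 0 < c j := by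
            simp only [zero_mul, add_zero]; exact hlt j hj
          exact (h2.continuousAt.eventually_lt continuousAt_const h3).mono fun ε h _ => h
      have h2 : ∀ᶠ ε : ℝ in nhdsWithin 0 (Set.Ioi 0), 0 < ε ∧
          ∀ j, j ∉ ac v c m₁ → dt m₁ (v j) + ε * dt η (v j) < c j :=
        (eventually_mem_nhdsWithin).and (h1.filter_mono nhdsWithin_le_nhds)
      exact h2.exists
    set m₀ : Ve d := m₁ + ε • η with hm₀
    have hdt : ∀ x, dt m₀ x = dt m₁ x + ε * dt η x := by
      intro x
      unfold dt
      rw [Finset.mul_sum, ← Finset.sum_add_distrib]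
      refine Finset.sum_congr rfl fun k _ => ?_
      simp [hm₀]; ring
    have hacm : ∀ j, j ∈ ac v c m₁ → dt m₁ (v j) = c j := by
      intro j hj
      unfold ac at hj
      exact (Finset.mem_filter.1 hj).2
    have hc0 : ∀ j ∈ F, c j - dt m₀ (v j) = 0 := by
      intro j hj
      have h1 := hη j (hF₁ hj)
      rw [if_pos hj] at h1
      rw [hdt, h1, hacm j (hF₁ hj)]; ring
    have hc1 : ∀ j, j ∉ F → 0 < c j - dt m₀ (v j) := by
      intro j hj
      rw [hdt]
      by_cases hjA : j ∈ ac v c m₁
      · have h1 := hη j hjA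
        rw [if_neg hj] at h1
        rw [h1, hacm j hjA]
        linarith
      · have := hε j hjA
        linarith
    have hIF : Ind v F := by
      unfold Ind at hA ⊢
      exact hA.comp (fun j : {x // x ∈ F} => (⟨j.1, hF₁ j.2⟩ : {x // x ∈ ac v c m₁}))
        (fun a b hab => Subtype.ext (congrArg (fun x : {x // x ∈ ac v c m₁} => (x : J)) hab))
    rw [(hTRL J d v (fn v ξ c F) c m₀ n hVan).1]
    intro k hk a ha hab
    set c' : J → ℝ := fun j => c j - dt m₀ (v j) with hc'
    rcases hk.eq_or_lt with hk2 | hk2
    · intro b hb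
      have h1 : n - k = k := by omega
      have h2 : n - 2 * k = 0 := by omega
      rw [h1] at hb
      have := hab b hb
      rwa [h2, pow_zero, one_mul] at this
    · have hHR : ∀ j, 0 < c' j → HRk ((fn v ξ c F).comp (LinearMap.mulLeft ℝ (X j))) (Lf c')
          (n - 1) k := by
        intro j hj
        have hjF : j ∉ F := by
          intro h
          have := hc0 j h
          simp only [hc'] at hj
          linarith
        obtain ⟨h1, h2⟩ := hind j hjF (n - 1) (by omega)
        have h3 := ((hTRL J d v (fn v ξ c (insert j F)) c m₀ (n - 1) h1).2 k (by omega)).1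
          (h2 k (by omega))
        have h4 : fn v ξ c (insert j F) = (fn v ξ c F).comp (LinearMap.mulLeft ℝ (X j)) :=
          hNF3 j hjF
        rwa [h4] at h3
      have h5 := hHLA J (fn v ξ c F) c' n k a
        (fun j => by
          by_cases hj : j ∈ F
          · exact (hc0 j hj).ge
          · exact (hc1 j hj).le) hk2 hHR ha hab
      have h6 : ∀ j, j ∉ F → ∀ b, MvPolynomial.IsHomogeneous b (n - 1 - k) →
          fn v ξ c F (X j * (a * b)) = 0 := fun j hj => h5 j (hc1 j hj)
      have h7 : ∀ j, ∀ b, MvPolynomial.IsHomogeneous b (n - 1 - k) →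
          fn v ξ c F (X j * (a * b)) = 0 := by
        intro i b hb
        by_cases hi : i ∈ F
        · obtain ⟨m, hm⟩ := exists_dt v F hIF (fun j => if j = i then 1 else 0)
          have h8 : fn v ξ c F (th v m * (a * b)) = 0 := by
            apply hVan.2 m (n - 1) (a * b) (by omega)
            have := ha.mul hb
            rwa [show k + (n - 1 - k) = n - 1 by omega] at this
          have h9 : th v m * (a * b) = ∑ j, dt m (v j) • (X j * (a * b)) := by
            unfold th Lf
            rw [Finset.sum_mul]
            refine Finset.sum_congr rfl fun j _ => ?_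
            rw [smul_eq_C_mul, mul_assoc]
          rw [h9, map_sum, Finset.sum_eq_single i] at h8
          · rw [map_smul, hm i hi, if_pos rfl, one_smul] at h8
            exact h8
          · intro j _ hji
            rw [map_smul]
            by_cases hj : j ∈ F
            · rw [hm j hj, if_neg hji, zero_smul]
            · rw [h6 j hj b hb, smul_zero]
          · intro h
            exact absurd (Finset.mem_univ _) h
        · exact h6 i hi b hb
      intro b hb
      have h10 := decomp ((fn v ξ c F).comp (LinearMap.mulLeft ℝ a)) (n - 1 - k)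
        (fun j b' hb' => by
          rw [LinearMap.comp_apply, LinearMap.mulLeft_apply]
          have : a * (X j * b') = X j * (a * b') := by ring
          rw [this]
          exact h7 j b' hb') b (by rwa [show n - 1 - k + 1 = n - k by omega])
      rwa [LinearMap.comp_apply, LinearMap.mulLeft_apply] at h10
  · have hz : ∀ f, fn v ξ c F f = 0 := by
      intro f
      have h1 := hNF1 f
      have h2 : (Fa v c).filter (fun σ => F ⊆ σ) = ∅ := by
        rw [Finset.filter_eq_empty_iff]
        intro σ hσ hFσ
        unfold Fa at hσ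
        rw [Finset.mem_filter] at hσ
        obtain ⟨m, hm1, hm2⟩ := hσ.2.2.2
        exact hex ⟨m, hm1, by rw [hm2]; exact hFσ⟩
      have h3 : fn v ξ c F f = fnS v ξ (Fa v c) F f := rfl
      rw [h3, h1, h2]
      unfold fnS dgS
      simp
    intro k _ a _ _ b _
    exact hz _

end Pool.Agent.Helper3.HR.HLG
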