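import Pool.Agent.Helper59.HR.Spec

/-!
Part TRI of swarm HR: the triangular matrix.
-/

set_option autoImplicit false

open MvPolynomial Pool.Agent.Helper59.LP

namespace Pool.Agent.Helper3.HR.TRI

section

variable {J : Type} [Fintype J] [DecidableEq J] {d : ℕ}

theorem dt_xi (hCF : S_CF) (v : J → Ve d) (ξ : Ve d) (σ : Finset J) (h1 : σ.card = d)
    (h2 : Ind v σ) (m : Ve d) : dt m ξ = ∑ i ∈ σ, cf v ξ σ i * dt m (v i) := by
  obtain ⟨h3, h4, -⟩ := hCF J d v ξ σ h1 h2
  have h5 : dt m ξ = ∑ i, cf v ξ σ i * dt m (v i) := by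
    conv_lhs => rw [← h4]
    unfold dt
    simp only [Finset.sum_apply, Pi.smul_apply, smul_eq_mul, Finset.mul_sum]
    rw [Finset.sum_comm]
    exact Finset.sum_congr rfl fun i _ => Finset.sum_congr rfl fun k _ => by ring
  rw [h5]
  symm
  refine Finset.sum_subset (Finset.subset_univ _) fun i _ hi => ?_
  rw [h3 i hi, zero_mul]

theorem xm_hom (B : Finset J) : (xm B : MvPolynomial J ℝ).IsHomogeneous B.card := by
  have h := MvPolynomial.IsHomogeneous.prod B (fun j => (X j : MvPolynomial J ℝ)) (fun _ => 1)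
    (fun j _ => isHomogeneous_X ℝ j)
  simpa [xm] using h

theorem aeval_xm (g : J → ℝ) (B : Finset J) : aeval g (xm B : MvPolynomial J ℝ) = ∏ j ∈ B, g j := by
  unfold xm
  rw [map_prod]
  exact Finset.prod_congr rfl fun j _ => aeval_X _ _

/-- the value at a product of two monomials -/
theorem fn_val (v : J → Ve d) (ξ : Ve d) (c : J → ℝ) (F A B : Finset J) :
    fn v ξ c F (xm A * xm B) = ∑ t ∈ Fa v c, (dv v t * ∏ j ∈ t, cf v ξ t j)⁻¹ *
      ((∏ j ∈ F, cf v ξ t j) * ((∏ j ∈ A, cf v ξ t j) * ∏ j ∈ B, cf v ξ t j)) := by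
  unfold fn fnS dgS
  rw [LinearMap.comp_apply, LinearMap.mulLeft_apply, LinearMap.sum_apply]
  refine Finset.sum_congr rfl fun t _ => ?_
  unfold tm
  rw [LinearMap.smul_apply, smul_eq_mul, AlgHom.toLinearMap_apply, map_mul, map_mul, aeval_xm,
    aeval_xm, aeval_xm]

end

theorem main (hCF : S_CF) : S_TRI := by
  classical
  intro J _ _ d v ξ c F n k hGX hFn hkn
  have hFa : ∀ σ ∈ Fa v c, σ.card = d ∧ Ind v σ ∧ ∃ m, Fe v c m ∧ ac v c m = σ := by
    intro σ hσ
    unfold Fa at hσ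
    rw [Finset.mem_filter] at hσ
    exact hσ.2
  have hvert : ∀ σ : Finset J, ∃ m, σ ∈ Fa v c → Fe v c m ∧ ac v c m = σ := by
    intro σ
    by_cases h : σ ∈ Fa v c
    · obtain ⟨m, hm⟩ := (hFa σ h).2.2
      exact ⟨m, fun _ => hm⟩
    · exact ⟨0, fun h' => absurd h' h⟩
  choose M hM using hvert
  have hMle : ∀ σ ∈ Fa v c, ∀ j, dt (M σ) (v j) ≤ c j := fun σ hσ j => (hM σ hσ).1 j
  have hMeq : ∀ σ ∈ Fa v c, ∀ j, j ∈ σ ↔ dt (M σ) (v j) = c j := by
    intro σ hσ j
    have h1 := (hM σ hσ).2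
    constructor
    · intro hj
      rw [← h1] at hj
      unfold ac at hj
      exact (Finset.mem_filter.1 hj).2
    · intro h
      rw [← h1]
      unfold ac
      exact Finset.mem_filter.2 ⟨Finset.mem_univ _, h⟩
  let Rn : Finset J → Finset J := fun σ => (σ \ F).filter fun j => cf v ξ σ j < 0
  -- the values of `ξ`
  have hup : ∀ s ∈ Fa v c, ∀ t ∈ Fa v c, F ⊆ t → Rn s ⊆ t →
      dt (M t) ξ ≤ dt (M s) ξ ∧ (dt (M t) ξ = dt (M s) ξ → s = t) := by
    intro s hs t ht hFt hRt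
    obtain ⟨h1, h2, -⟩ := hFa s hs
    have h3 : ∀ i ∈ s, cf v ξ s i * dt (M t) (v i) ≤ cf v ξ s i * dt (M s) (v i) := by
      intro i hi
      by_cases hit : i ∈ t
      · rw [(hMeq t ht i).1 hit, (hMeq s hs i).1 hi]
      · have h4 : 0 < cf v ξ s i := by
          have h5 : i ∉ Rn s := fun h => hit (hRt h)
          have h6 : i ∉ F := fun h => hit (hFt h)
          have h7 : ¬ cf v ξ s i < 0 := by
            intro h
            exact h5 (Finset.mem_filter.2 ⟨Finset.mem_sdiff.2 ⟨hi, h6⟩, h⟩)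
          exact lt_of_le_of_ne (not_lt.1 h7) (hGX s h1 h2 i hi).symm
        rw [(hMeq s hs i).1 hi]
        exact mul_le_mul_of_nonneg_left (hMle t ht i) h4.le
    rw [dt_xi hCF v ξ s h1 h2, dt_xi hCF v ξ s h1 h2 (M s)]
    refine ⟨Finset.sum_le_sum h3, fun heq => ?_⟩
    have h4 := (Finset.sum_eq_sum_iff_of_le h3).1 heq
    have h5 : s ⊆ t := by
      intro i hi
      have h6 := h4 i hi
      have h7 := mul_left_cancel₀ (hGX s h1 h2 i hi) h6
      rw [(hMeq s hs i).1 hi] at h7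
      exact (hMeq t ht i).2 h7
    exact Finset.eq_of_subset_of_card_le h5 (by rw [h1, (hFa t ht).1])
  have hdn : ∀ r ∈ Fa v c, ∀ t ∈ Fa v c, F ⊆ t → (r \ F) \ Rn r ⊆ t →
      dt (M r) ξ ≤ dt (M t) ξ ∧ (dt (M r) ξ = dt (M t) ξ → r = t) := by
    intro r hr t ht hFt hRt
    obtain ⟨h1, h2, -⟩ := hFa r hr
    have h3 : ∀ i ∈ r, cf v ξ r i * dt (M r) (v i) ≤ cf v ξ r i * dt (M t) (v i) := by
      intro i hi
      by_cases hit : i ∈ t
      · rw [(hMeq t ht i).1 hit, (hMeq r hr i).1 hi]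
      · have h6 : i ∉ F := fun h => hit (hFt h)
        have h4 : i ∈ Rn r := by
          by_contra h
          exact hit (hRt (Finset.mem_sdiff.2 ⟨Finset.mem_sdiff.2 ⟨hi, h6⟩, h⟩))
        have h5 : cf v ξ r i < 0 := (Finset.mem_filter.1 h4).2
        rw [(hMeq r hr i).1 hi]
        exact mul_le_mul_of_nonpos_left (hMle t ht i) h5.le
    rw [dt_xi hCF v ξ r h1 h2, dt_xi hCF v ξ r h1 h2 (M t)]
    refine ⟨Finset.sum_le_sum h3, fun heq => ?_⟩
    have h4 := (Finset.sum_eq_sum_iff_of_le h3).1 heq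
    have h5 : r ⊆ t := by
      intro i hi
      have h6 := h4 i hi
      have h7 := mul_left_cancel₀ (hGX r h1 h2 i hi) h6
      rw [(hMeq r hr i).1 hi] at h7
      exact (hMeq t ht i).2 h7.symm
    exact Finset.eq_of_subset_of_card_le h5 (by rw [h1, (hFa t ht).1])
  -- the matrix
  let mat : Finset J → Finset J → ℝ := fun s r => fn v ξ c F (xm (Rn s) * xm ((r \ F) \ Rn r))
  have hmat : ∀ s ∈ Fa v c, ∀ r ∈ Fa v c, mat s r ≠ 0 → s ≠ r → dt (M r) ξ < dt (M s) ξ := by
    intro s hs r hr h hsr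
    simp only [mat] at h
    rw [fn_val] at h
    obtain ⟨t, ht, h1⟩ := Finset.exists_ne_zero_of_sum_ne_zero h
    have h2 := right_ne_zero_of_mul h1
    have h3 := left_ne_zero_of_mul h2
    have h4 := right_ne_zero_of_mul h2
    have h5 := left_ne_zero_of_mul h4
    have h6 := right_ne_zero_of_mul h4
    have h7 : ∀ B : Finset J, ∏ j ∈ B, cf v ξ t j ≠ 0 → B ⊆ t := by
      intro B hB j hj
      by_contra hjt
      apply hB
      exact Finset.prod_eq_zero hj ((hCF J d v ξ t (hFa t ht).1 (hFa t ht).2.1).1 j hjt)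
    obtain ⟨h8, h9⟩ := hup s hs t ht (h7 F h3) (h7 _ h5)
    obtain ⟨h10, h11⟩ := hdn r hr t ht (h7 F h3) (h7 _ h6)
    refine lt_of_le_of_ne (h10.trans h8) fun heq => hsr ?_
    have h12 : dt (M r) ξ = dt (M t) ξ := le_antisymm h10 (heq ▸ h8)
    have h13 : dt (M t) ξ = dt (M s) ξ := h12 ▸ heq
    rw [h9 h13, h11 h12]
  have hdiag : ∀ s ∈ Fa v c, F ⊆ s → mat s s ≠ 0 := by
    intro s hs hFs
    obtain ⟨h1, h2, -⟩ := hFa s hs
    simp only [mat]
    rw [fn_val, Finset.sum_eq_single s]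
    · have hp : (∏ j ∈ F, cf v ξ s j) * ((∏ j ∈ Rn s, cf v ξ s j) *
          ∏ j ∈ (s \ F) \ Rn s, cf v ξ s j) = ∏ j ∈ s, cf v ξ s j := by
        have e1 : Rn s ⊆ s \ F := Finset.filter_subset _ _
        rw [mul_comm (∏ j ∈ Rn s, cf v ξ s j), Finset.prod_sdiff e1,
          mul_comm, Finset.prod_sdiff hFs]
      have hp0 : ∏ j ∈ s, cf v ξ s j ≠ 0 := Finset.prod_ne_zero_iff.2 fun j hj => hGX s h1 h2 j hj
      have hd0 : dv v s ≠ 0 := (hCF J d v ξ s h1 h2).2.2.1.ne'
      rw [hp]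
      exact mul_ne_zero (inv_ne_zero (mul_ne_zero hd0 hp0)) hp0
    · intro t ht hts
      obtain ⟨j, hjs, hjt⟩ : ∃ j ∈ s, j ∉ t := by
        by_contra hc
        push Not at hc
        apply hts
        exact (Finset.eq_of_subset_of_card_le hc (by rw [h1, (hFa t ht).1])).symm
      have hz : cf v ξ t j = 0 := (hCF J d v ξ t (hFa t ht).1 (hFa t ht).2.1).1 j hjt
      by_cases hjF : j ∈ F
      · rw [Finset.prod_eq_zero hjF hz]; ring
      · by_cases hjR : j ∈ Rn s
        · rw [Finset.prod_eq_zero hjR hz]; ring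
        · rw [Finset.prod_eq_zero (s := (s \ F) \ Rn s) (i := j)
            (Finset.mem_sdiff.2 ⟨Finset.mem_sdiff.2 ⟨hjs, hjF⟩, hjR⟩) hz]
          ring
    · intro h
      exact absurd hs h
  -- the independent family
  set T : Finset (Finset J) := (Fa v c).filter fun σ => F ⊆ σ ∧
    ((σ \ F).filter fun j => cf v ξ σ j < 0).card = k with hT
  have hTm : ∀ s ∈ T, s ∈ Fa v c ∧ F ⊆ s ∧ (Rn s).card = k := by
    intro s hs
    rw [hT, Finset.mem_filter] at hs
    exact ⟨hs.1, hs.2.1, hs.2.2⟩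
  have hhh : hh v ξ c F k = T.card := rfl
  let w : {s // s ∈ T} → homogeneousSubmodule J ℝ k := fun s =>
    ⟨xm (Rn s.1), by
      rw [mem_homogeneousSubmodule]
      have := xm_hom (Rn s.1)
      rwa [(hTm s.1 s.2).2.2] at this⟩
  let u : {s // s ∈ T} → homogeneousSubmodule J ℝ (n - k) := fun r =>
    ⟨xm ((r.1 \ F) \ Rn r.1), by
      rw [mem_homogeneousSubmodule]
      have h1 := xm_hom ((r.1 \ F) \ Rn r.1)
      obtain ⟨h2, h3, h4⟩ := hTm r.1 r.2
      have h5 : ((r.1 \ F) \ Rn r.1).card = n - k := by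
        rw [Finset.card_sdiff_of_subset (Finset.filter_subset _ _), h4,
          Finset.card_sdiff_of_subset h3, (hFa r.1 h2).1]
        omega
      rwa [h5] at h1⟩
  set φ := fn v ξ c F with hφ
  let W : ({s // s ∈ T} → ℝ) →ₗ[ℝ] homogeneousSubmodule J ℝ k := Fintype.linearCombination ℝ w
  let H : ({s // s ∈ T} → ℝ) →ₗ[ℝ] Module.Dual ℝ (homogeneousSubmodule J ℝ (n - k)) :=
    (Hf φ k (n - k)).comp W
  have hval : ∀ (α : {s // s ∈ T} → ℝ) (r : {s // s ∈ T}),
      H α (u r) = ∑ s, α s * mat s.1 r.1 := by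
    intro α r
    have h1 : H α (u r) = φ ((W α : MvPolynomial J ℝ) * xm ((r.1 \ F) \ Rn r.1)) := rfl
    have h2 : (W α : MvPolynomial J ℝ) = ∑ s, α s • xm (Rn s.1) := by
      simp only [W, Fintype.linearCombination_apply, Submodule.coe_sum, Submodule.coe_smul]
      rfl
    rw [h1, h2, Finset.sum_mul, map_sum]
    refine Finset.sum_congr rfl fun s _ => ?_
    rw [smul_mul_assoc, map_smul, smul_eq_mul]
  have hinj : Function.Injective H := by
    rw [← LinearMap.ker_eq_bot, LinearMap.ker_eq_bot']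
    intro α hα
    by_contra hc
    obtain ⟨i₀, hi₀⟩ : ∃ i, α i ≠ 0 := by
      by_contra h
      push Not at h
      exact hc (funext h)
    obtain ⟨s₀, hs₀, hmax⟩ := Finset.exists_max_image
      (Finset.univ.filter fun s : {s // s ∈ T} => α s ≠ 0) (fun s => dt (M s.1) ξ)
      ⟨i₀, Finset.mem_filter.2 ⟨Finset.mem_univ _, hi₀⟩⟩
    rw [Finset.mem_filter] at hs₀
    have h1 : ∑ s, α s * mat s.1 s₀.1 = 0 := by
      rw [← hval, hα, LinearMap.zero_apply]
    rw [Finset.sum_eq_single s₀] at h1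
    · rcases mul_eq_zero.1 h1 with h | h
      · exact hs₀.2 h
      · exact hdiag s₀.1 (hTm _ s₀.2).1 (hTm _ s₀.2).2.1 h
    · intro s _ hss
      by_cases hαs : α s = 0
      · rw [hαs, zero_mul]
      · have h3 : mat s.1 s₀.1 = 0 := by
          by_contra h
          have h4 := hmat s.1 (hTm _ s.2).1 s₀.1 (hTm _ s₀.2).1 h
            (fun h => hss (Subtype.ext h))
          have h5 := hmax s (Finset.mem_filter.2 ⟨Finset.mem_univ _, hαs⟩)
          linarith
        rw [h3, mul_zero]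
    · intro h
      exact absurd (Finset.mem_univ _) h
  have h1 : Module.finrank ℝ (LinearMap.range H) = T.card := by
    rw [LinearMap.finrank_range_of_inj hinj, Module.finrank_fintype_fun_eq_card, Fintype.card_coe]
  have h2 : Module.finrank ℝ (LinearMap.range H) ≤
      Module.finrank ℝ (LinearMap.range (Hf φ k (n - k))) :=
    Submodule.finrank_mono (LinearMap.range_comp_le_range _ _)
  rw [hhh, ← h1]
  exact h2

end Pool.Agent.Helper3.HR.TRI
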